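import Pool.Agent.W249.QT.B1

/-!
# QT-B: products of simple polytopes, TaskB
-/

set_option autoImplicit false

namespace Pool.Agent.W249.QT

open Pool.Agent.W31.QT Finset

variable {M : Type} [AddCommGroup M] {n₁ n₂ : ℕ}

/-- the normals of the product -/
noncomputable def pa (P : SimplePolytope n₁) (Q : SimplePolytope n₂) :
    Fin (P.m + Q.m) → Fin (n₁ + n₂) → ℝ :=
  Fin.addCases (fun i => Fin.append (P.a i) 0) (fun j => Fin.append 0 (Q.a j))

/-- the constants of the product -/
noncomputable def pb (P : SimplePolytope n₁) (Q : SimplePolytope n₂) : Fin (P.m + Q.m) → ℝ :=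
  Fin.addCases P.b Q.b

/-- first part of a point -/
def fst' (x : Fin (n₁ + n₂) → ℝ) : Fin n₁ → ℝ := fun i => x (Fin.castAdd n₂ i)

/-- second part of a point -/
def snd' (x : Fin (n₁ + n₂) → ℝ) : Fin n₂ → ℝ := fun i => x (Fin.natAdd n₁ i)

theorem append_fst (x : Fin n₁ → ℝ) (y : Fin n₂ → ℝ) : fst' (Fin.append x y) = x := by
  funext i; simp [fst']

theorem append_snd (x : Fin n₁ → ℝ) (y : Fin n₂ → ℝ) : snd' (Fin.append x y) = y := by
  funext i; simp [snd']

theorem pa_left (P : SimplePolytope n₁) (Q : SimplePolytope n₂) (i : Fin P.m) :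
    pa P Q (Fin.castAdd Q.m i) = Fin.append (P.a i) 0 := by simp [pa]

theorem pa_right (P : SimplePolytope n₁) (Q : SimplePolytope n₂) (i : Fin Q.m) :
    pa P Q (Fin.natAdd P.m i) = Fin.append 0 (Q.a i) := by simp [pa]

theorem val_left (P : SimplePolytope n₁) (Q : SimplePolytope n₂) (i : Fin P.m)
    (x : Fin (n₁ + n₂) → ℝ) :
    pa P Q (Fin.castAdd Q.m i) ⬝ᵥ x + pb P Q (Fin.castAdd Q.m i) = P.a i ⬝ᵥ fst' x + P.b i := by
  rw [pa_left]
  simp [pb, dotProduct, Fin.sum_univ_add, fst']

theorem val_right (P : SimplePolytope n₁) (Q : SimplePolytope n₂) (i : Fin Q.m)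
    (x : Fin (n₁ + n₂) → ℝ) :
    pa P Q (Fin.natAdd P.m i) ⬝ᵥ x + pb P Q (Fin.natAdd P.m i) = Q.a i ⬝ᵥ snd' x + Q.b i := by
  rw [pa_right]
  simp [pb, dotProduct, Fin.sum_univ_add, snd']

theorem forall_add {m₁ m₂ : ℕ} (q : Fin (m₁ + m₂) → Prop) :
    (∀ i, q i) ↔ (∀ i, q (Fin.castAdd m₂ i)) ∧ ∀ i, q (Fin.natAdd m₁ i) :=
  ⟨fun h => ⟨fun _ => h _, fun _ => h _⟩, fun h i => Fin.addCases h.1 h.2 i⟩

theorem forall_val (P : SimplePolytope n₁) (Q : SimplePolytope n₂) (q : ℝ → Prop)
    (x : Fin (n₁ + n₂) → ℝ) :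
    (∀ i, q (pa P Q i ⬝ᵥ x + pb P Q i)) ↔
      (∀ i, q (P.a i ⬝ᵥ fst' x + P.b i)) ∧ ∀ i, q (Q.a i ⬝ᵥ snd' x + Q.b i) := by
  rw [forall_add]
  simp only [val_left, val_right]

/-- the product of two simple polytopes -/
noncomputable def prodP (P : SimplePolytope n₁) (Q : SimplePolytope n₂) :
    SimplePolytope (n₁ + n₂) where
  m := P.m + Q.m
  a := pa P Q
  b := pb P Q
  bounded := by
    obtain ⟨R, hR⟩ := P.bounded.exists_norm_le
    obtain ⟨S, hS⟩ := Q.bounded.exists_norm_le
    refine (Metric.isBounded_closedBall (x := (0 : Fin (n₁ + n₂) → ℝ))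
      (r := max (max R S) 0)).subset ?_
    intro x hx
    obtain ⟨h1, h2⟩ := (forall_val P Q (fun y => 0 ≤ y) x).mp hx
    rw [Metric.mem_closedBall, dist_zero_right]
    refine (pi_norm_le_iff_of_nonneg (le_max_right _ _)).mpr ?_
    rw [forall_add]
    constructor
    · intro i
      exact (norm_le_pi_norm (fst' x) i).trans
        ((hR _ h1).trans ((le_max_left _ _).trans (le_max_left _ _)))
    · intro i
      exact (norm_le_pi_norm (snd' x) i).trans
        ((hS _ h2).trans ((le_max_right _ _).trans (le_max_left _ _)))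
  full := by
    obtain ⟨x, hx⟩ := P.full
    obtain ⟨y, hy⟩ := Q.full
    refine ⟨Fin.append x y, (forall_val P Q (fun y => 0 < y) _).mpr ?_⟩
    rw [append_fst, append_snd]
    exact ⟨hx, hy⟩
  facet := by
    obtain ⟨x, hx⟩ := P.full
    obtain ⟨y, hy⟩ := Q.full
    rw [forall_add]
    constructor
    · intro i
      obtain ⟨x', h1, h2⟩ := P.facet i
      refine ⟨Fin.append x' y, ?_, ?_⟩
      · rw [val_left, append_fst]
        exact h1
      · rw [forall_add]
        refine ⟨fun j hj => ?_, fun j _ => ?_⟩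
        · rw [val_left, append_fst]
          exact h2 j fun h => hj (by rw [h])
        · rw [val_right, append_snd]
          exact hy j
    · intro i
      obtain ⟨y', h1, h2⟩ := Q.facet i
      refine ⟨Fin.append x y', ?_, ?_⟩
      · rw [val_right, append_snd]
        exact h1
      · rw [forall_add]
        refine ⟨fun j _ => ?_, fun j hj => ?_⟩
        · rw [val_left, append_fst]
          exact hx j
        · rw [val_right, append_snd]
          exact h2 j fun h => hj (by rw [h])
  simple := by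
    intro x hx
    obtain ⟨h1, h2⟩ := (forall_val P Q (fun y => 0 ≤ y) x).mp hx
    rw [li_iff (pa P Q)]
    intro c hc hs
    rw [Fin.sum_univ_add] at hs
    have k1 := (li_iff P.a _).mp (P.simple _ h1)
      (fun i => c (Fin.castAdd Q.m i)) (fun i hi => hc _ (by rw [val_left]; exact hi)) ?_
    · have k2 := (li_iff Q.a _).mp (Q.simple _ h2)
        (fun i => c (Fin.natAdd P.m i)) (fun i hi => hc _ (by rw [val_right]; exact hi)) ?_
      · rw [forall_add]
        exact ⟨k1, k2⟩
      · funext k
        have h3 := congrFun hs (Fin.natAdd n₁ k)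
        simpa [pa_left, pa_right, Finset.sum_apply] using h3
    · funext k
      have h3 := congrFun hs (Fin.castAdd n₂ k)
      simpa [pa_left, pa_right, Finset.sum_apply] using h3

/-- concatenation of two selections of facets -/
def glue (P : SimplePolytope n₁) (Q : SimplePolytope n₂) (f : Fin n₁ → Fin P.m)
    (g : Fin n₂ → Fin Q.m) : Fin (n₁ + n₂) → Fin (prodP P Q).m :=
  Fin.append (fun i => Fin.castAdd Q.m (f i)) (fun i => Fin.natAdd P.m (g i))

theorem glue_left (P : SimplePolytope n₁) (Q : SimplePolytope n₂) (f : Fin n₁ → Fin P.m)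
    (g : Fin n₂ → Fin Q.m) (i : Fin n₁) :
    glue P Q f g (Fin.castAdd n₂ i) = Fin.castAdd Q.m (f i) := by
  unfold glue
  exact Fin.append_left _ _ _

theorem glue_right (P : SimplePolytope n₁) (Q : SimplePolytope n₂) (f : Fin n₁ → Fin P.m)
    (g : Fin n₂ → Fin Q.m) (i : Fin n₂) :
    glue P Q f g (Fin.natAdd n₁ i) = Fin.natAdd P.m (g i) := by
  unfold glue
  exact Fin.append_right _ _ _

theorem glue_inj (P : SimplePolytope n₁) (Q : SimplePolytope n₂) (f f' : Fin n₁ → Fin P.m)
    (g g' : Fin n₂ → Fin Q.m) (h : glue P Q f g = glue P Q f' g') : f = f' ∧ g = g' := by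
  constructor
  · funext i
    have h1 := congrFun h (Fin.castAdd n₂ i)
    rw [glue_left, glue_left] at h1
    exact Fin.castAdd_injective _ _ h1
  · funext i
    have h1 := congrFun h (Fin.natAdd n₁ i)
    rw [glue_right, glue_right] at h1
    exact Fin.natAdd_injective _ _ h1

/-- at most `n` facets meet in a point -/
theorem no_more {n : ℕ} (P : SimplePolytope n) (x : Fin n → ℝ) (hx : ∀ i, 0 ≤ P.a i ⬝ᵥ x + P.b i)
    (g : Option (Fin n) → Fin P.m) (hg : Function.Injective g)
    (h : ∀ o, P.a (g o) ⬝ᵥ x + P.b (g o) = 0) : False := by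
  have h1 := P.simple x hx
  have h2 := h1.comp (fun o => ⟨g o, h o⟩) (fun o o' ho => hg (Subtype.ext_iff.mp ho))
  have h3 := h2.fintype_card_le_finrank
  simp at h3

theorem mem_verts {n : ℕ} (P : SimplePolytope n) (f : Fin n → Fin P.m) :
    f ∈ P.verts ↔ StrictMono f ∧
    ∃ x : Fin n → ℝ, (∀ i, 0 ≤ P.a i ⬝ᵥ x + P.b i) ∧ ∀ i, P.a (f i) ⬝ᵥ x + P.b (f i) = 0 := by
  classical
  unfold SimplePolytope.verts
  rw [Finset.mem_filter]
  simp only [Finset.mem_univ, true_and]

theorem glue_mem (P : SimplePolytope n₁) (Q : SimplePolytope n₂) (f : Fin n₁ → Fin P.m)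
    (g : Fin n₂ → Fin Q.m) (hf : f ∈ P.verts) (hg : g ∈ Q.verts) :
    glue P Q f g ∈ (prodP P Q).verts := by
  rw [mem_verts] at hf hg ⊢
  obtain ⟨hf1, x, hx, hx'⟩ := hf
  obtain ⟨hg1, y, hy, hy'⟩ := hg
  refine ⟨?_, Fin.append x y, ?_, ?_⟩
  · intro i j
    refine Fin.addCases (fun i => ?_) (fun i => ?_) i <;>
      refine Fin.addCases (fun j => ?_) (fun j => ?_) j <;> intro hij
    · rw [glue_left, glue_left]
      have h1 : i < j := by
        rw [Fin.lt_def] at hij ⊢
        simpa using hij
      have h2 := hf1 h1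
      rw [Fin.lt_def] at h2
      exact h2
    · rw [glue_left, glue_right]
      show (f i : ℕ) < P.m + (g j : ℕ)
      have := (f i).isLt
      omega
    · exfalso
      rw [Fin.lt_def] at hij
      have h1 : n₁ + (i : ℕ) < (j : ℕ) := hij
      have := j.isLt
      omega
    · rw [glue_right, glue_right]
      have h1 : i < j := by
        rw [Fin.lt_def] at hij ⊢
        have h3 : n₁ + (i : ℕ) < n₁ + (j : ℕ) := hij
        omega
      have h2 := hg1 h1
      rw [Fin.lt_def] at h2
      show P.m + (g i : ℕ) < P.m + (g j : ℕ)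
      omega
  · refine (forall_val P Q (fun y => 0 ≤ y) _).mpr ?_
    rw [append_fst, append_snd]
    exact ⟨hx, hy⟩
  · rw [forall_add]
    constructor
    · intro i
      rw [glue_left]
      show pa P Q _ ⬝ᵥ _ + pb P Q _ = 0
      rw [val_left, append_fst]
      exact hx' i
    · intro i
      rw [glue_right]
      show pa P Q _ ⬝ᵥ _ + pb P Q _ = 0
      rw [val_right, append_snd]
      exact hy' i

theorem exists_glue (P : SimplePolytope n₁) (Q : SimplePolytope n₂)
    (F : Fin (n₁ + n₂) → Fin (prodP P Q).m) (hF : F ∈ (prodP P Q).verts) :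
    ∃ f ∈ P.verts, ∃ g ∈ Q.verts, F = glue P Q f g := by
  rw [mem_verts] at hF
  obtain ⟨hF1, x, hx, hx'⟩ := hF
  obtain ⟨hx1, hx2⟩ := (forall_val P Q (fun y => 0 ≤ y) x).mp hx
  change StrictMono (F : Fin (n₁ + n₂) → Fin (P.m + Q.m)) at hF1
  -- the two kinds of values
  have hcases : ∀ t : Fin (P.m + Q.m), (t : ℕ) < P.m ∧ (∃ i, t = Fin.castAdd Q.m i) ∨
      P.m ≤ (t : ℕ) ∧ ∃ i, t = Fin.natAdd P.m i := by
    intro t
    refine Fin.addCases (fun i => ?_) (fun i => ?_) t
    · exact Or.inl ⟨i.isLt, i, rfl⟩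
    · exact Or.inr ⟨Nat.le_add_right _ _, i, rfl⟩
  have hL : ∀ t : Fin (P.m + Q.m), (t : ℕ) < P.m → ∃ i, t = Fin.castAdd Q.m i := by
    intro t ht
    rcases hcases t with h | h
    · exact h.2
    · omega
  have hR : ∀ t : Fin (P.m + Q.m), P.m ≤ (t : ℕ) → ∃ i, t = Fin.natAdd P.m i := by
    intro t ht
    rcases hcases t with h | h
    · omega
    · exact h.2
  -- the first `n₁` values are in the first block
  have h1 : ∀ i : Fin n₁, (F (Fin.castAdd n₂ i) : ℕ) < P.m := by
    intro i
    by_contra hcon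
    push Not at hcon
    have h2 : ∀ j : Fin n₂, P.m ≤ (F (Fin.natAdd n₁ j) : ℕ) := by
      intro j
      refine hcon.trans ?_
      have h3 : Fin.castAdd n₂ i < Fin.natAdd n₁ j := by
        rw [Fin.lt_def]
        show (i : ℕ) < n₁ + j
        have := i.isLt
        omega
      exact (hF1 h3).le
    choose g hg using fun j => hR _ (h2 j)
    obtain ⟨g₀, hg₀⟩ := hR _ hcon
    refine no_more Q (snd' x) hx2 (fun o => o.elim g₀ g) ?_ ?_
    · have hne : ∀ j, g₀ ≠ g j := by
        intro j h
        have h4 : F (Fin.castAdd n₂ i) = F (Fin.natAdd n₁ j) := by rw [hg₀, hg, h]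
        have h5 := congrArg Fin.val (hF1.injective h4)
        have h6 : (i : ℕ) = n₁ + j := h5
        have := i.isLt
        omega
      intro o o' ho
      cases o with
      | none => cases o' with
        | none => rfl
        | some j => exact absurd ho (hne j)
      | some j => cases o' with
        | none => exact absurd ho.symm (hne j)
        | some j' =>
          have h4 : F (Fin.natAdd n₁ j) = F (Fin.natAdd n₁ j') := by
            rw [hg, hg]; exact congrArg _ ho
          have h5 := Fin.natAdd_injective _ _ (hF1.injective h4)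
          rw [h5]
    · intro o
      cases o with
      | none =>
        have h4 := hx' (Fin.castAdd n₂ i)
        rw [hg₀] at h4
        change pa P Q _ ⬝ᵥ _ + pb P Q _ = 0 at h4
        rw [val_right] at h4
        exact h4
      | some j =>
        have h4 := hx' (Fin.natAdd n₁ j)
        rw [hg j] at h4
        change pa P Q _ ⬝ᵥ _ + pb P Q _ = 0 at h4
        rw [val_right] at h4
        exact h4
  have h2 : ∀ j : Fin n₂, P.m ≤ (F (Fin.natAdd n₁ j) : ℕ) := by
    intro j
    by_contra hcon
    push Not at hcon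
    choose f hf using fun i => hL _ (h1 i)
    obtain ⟨f₀, hf₀⟩ := hL _ hcon
    refine no_more P (fst' x) hx1 (fun o => o.elim f₀ f) ?_ ?_
    · have hne : ∀ i, f₀ ≠ f i := by
        intro i h
        have h4 : F (Fin.natAdd n₁ j) = F (Fin.castAdd n₂ i) := by rw [hf₀, hf, h]
        have h5 := congrArg Fin.val (hF1.injective h4)
        have h6 : n₁ + (j : ℕ) = i := h5
        have := i.isLt
        omega
      intro o o' ho
      cases o with
      | none => cases o' with
        | none => rfl
        | some i => exact absurd ho (hne i)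
      | some i => cases o' with
        | none => exact absurd ho.symm (hne i)
        | some i' =>
          have h4 : F (Fin.castAdd n₂ i) = F (Fin.castAdd n₂ i') := by
            rw [hf, hf]; exact congrArg _ ho
          have h5 := Fin.castAdd_injective _ _ (hF1.injective h4)
          rw [h5]
    · intro o
      cases o with
      | none =>
        have h4 := hx' (Fin.natAdd n₁ j)
        rw [hf₀] at h4
        change pa P Q _ ⬝ᵥ _ + pb P Q _ = 0 at h4
        rw [val_left] at h4
        exact h4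
      | some i =>
        have h4 := hx' (Fin.castAdd n₂ i)
        rw [hf i] at h4
        change pa P Q _ ⬝ᵥ _ + pb P Q _ = 0 at h4
        rw [val_left] at h4
        exact h4
  choose f hf using fun i => hL _ (h1 i)
  choose g hg using fun j => hR _ (h2 j)
  refine ⟨f, ?_, g, ?_, ?_⟩
  · rw [mem_verts]
    refine ⟨?_, fst' x, hx1, ?_⟩
    · intro i i' hii
      have h3 : Fin.castAdd n₂ i < Fin.castAdd n₂ i' := by
        rw [Fin.lt_def] at hii ⊢
        exact hii
      have h4 := hF1 h3
      rw [hf, hf] at h4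
      exact h4
    · intro i
      have h4 := hx' (Fin.castAdd n₂ i)
      rw [hf i] at h4
      change pa P Q _ ⬝ᵥ _ + pb P Q _ = 0 at h4
      rw [val_left] at h4
      exact h4
  · rw [mem_verts]
    refine ⟨?_, snd' x, hx2, ?_⟩
    · intro i i' hii
      have h3 : Fin.natAdd n₁ i < Fin.natAdd n₁ i' := by
        rw [Fin.lt_def] at hii ⊢
        show n₁ + (i : ℕ) < n₁ + i'
        omega
      have h4 := hF1 h3
      rw [hg, hg] at h4
      have h5 : P.m + (g i : ℕ) < P.m + g i' := h4
      rw [Fin.lt_def]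
      omega
    · intro i
      have h4 := hx' (Fin.natAdd n₁ i)
      rw [hg i] at h4
      change pa P Q _ ⬝ᵥ _ + pb P Q _ = 0 at h4
      rw [val_right] at h4
      exact h4
  · funext t
    refine Fin.addCases (fun i => ?_) (fun i => ?_) t
    · rw [glue_left]; exact hf i
    · rw [glue_right]; exact hg i

theorem glue_vsign (P : SimplePolytope n₁) (Q : SimplePolytope n₂) (f : Fin n₁ → Fin P.m)
    (g : Fin n₂ → Fin Q.m) : (prodP P Q).vsign (glue P Q f g) = P.vsign f * Q.vsign g := by
  unfold SimplePolytope.vsign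
  have h1 : (Matrix.of fun i => (prodP P Q).a (glue P Q f g i)) =
      (Matrix.reindex finSumFinEquiv finSumFinEquiv)
        (Matrix.fromBlocks (Matrix.of fun i => P.a (f i)) 0 0 (Matrix.of fun i => Q.a (g i))) := by
    ext i j
    rw [Matrix.of_apply, Matrix.reindex_apply, Matrix.submatrix_apply]
    refine Fin.addCases (fun i => ?_) (fun i => ?_) i
    · rw [glue_left, finSumFinEquiv_symm_apply_castAdd]
      show pa P Q _ j = _
      rw [pa_left]
      refine Fin.addCases (fun j => ?_) (fun j => ?_) j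
      · rw [finSumFinEquiv_symm_apply_castAdd, Fin.append_left, Matrix.fromBlocks_apply₁₁]
        rfl
      · rw [finSumFinEquiv_symm_apply_natAdd, Fin.append_right, Matrix.fromBlocks_apply₁₂]
        rfl
    · rw [glue_right, finSumFinEquiv_symm_apply_natAdd]
      show pa P Q _ j = _
      rw [pa_right]
      refine Fin.addCases (fun j => ?_) (fun j => ?_) j
      · rw [finSumFinEquiv_symm_apply_castAdd, Fin.append_left, Matrix.fromBlocks_apply₂₁]
        rfl
      · rw [finSumFinEquiv_symm_apply_natAdd, Fin.append_right, Matrix.fromBlocks_apply₂₂]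
        rfl
  rw [h1, Matrix.det_reindex_self, Matrix.det_fromBlocks_zero₂₁, sign_mul]
  exact SignType.coe_mul _ _

/-- the labels of the product -/
def plam (P : SimplePolytope n₁) (Q : SimplePolytope n₂) (l₁ : Fin P.m → M) (l₂ : Fin Q.m → M) :
    Fin (prodP P Q).m → M :=
  Fin.append l₁ l₂

omit [AddCommGroup M] in
theorem ofFn_glue (P : SimplePolytope n₁) (Q : SimplePolytope n₂) (l₁ : Fin P.m → M)
    (l₂ : Fin Q.m → M) (f : Fin n₁ → Fin P.m) (g : Fin n₂ → Fin Q.m) :
    (List.ofFn fun i => plam P Q l₁ l₂ (glue P Q f g i)) =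
      (List.ofFn fun i => l₁ (f i)) ++ List.ofFn fun i => l₂ (g i) := by
  rw [← List.ofFn_fin_append]
  congr 1
  funext t
  refine Fin.addCases (fun i => ?_) (fun i => ?_) t
  · rw [glue_left, Fin.append_left]
    exact Fin.append_left _ _ _
  · rw [glue_right, Fin.append_right]
    exact Fin.append_right _ _ _

theorem prod_chain (P : SimplePolytope n₁) (Q : SimplePolytope n₂) (l₁ : Fin P.m → M)
    (l₂ : Fin Q.m → M) :
    (prodP P Q).chain (plam P Q l₁ l₂) = P.chain l₁ * Q.chain l₂ := by
  classical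
  have h1 : (prodP P Q).verts = (P.verts ×ˢ Q.verts).image (fun p => glue P Q p.1 p.2) := by
    ext F
    rw [Finset.mem_image]
    constructor
    · intro hF
      obtain ⟨f, hf, g, hg, rfl⟩ := exists_glue P Q F hF
      exact ⟨(f, g), Finset.mem_product.mpr ⟨hf, hg⟩, rfl⟩
    · rintro ⟨p, hp, rfl⟩
      obtain ⟨h2, h3⟩ := Finset.mem_product.mp hp
      exact glue_mem P Q _ _ h2 h3
  unfold SimplePolytope.chain
  rw [h1, Finset.sum_image, Finset.sum_product, Finset.sum_mul_sum]
  · refine Finset.sum_congr rfl fun f _ => Finset.sum_congr rfl fun g _ => ?_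
    rw [glue_vsign, ofFn_glue, pr_append, smul_mul_smul_comm]
  · rintro ⟨f, g⟩ _ ⟨f', g'⟩ _ h
    obtain ⟨h2, h3⟩ := glue_inj P Q f f' g g' h
    rw [h2, h3]

/-- one factor -/
theorem one_factor (g : List M) (hg : g ≠ []) :
    ∃ (P : SimplePolytope (g.length - 1)) (lam : Fin P.m → M), P.chain lam = bd (pr g) ∧
      ∀ f ∈ P.verts, ∃ i, i < g.length ∧ (List.ofFn fun i => lam (f i)) = g.eraseIdx i := by
  cases g with
  | nil => exact absurd rfl hg
  | cons x t =>
    cases t with
    | nil =>
      refine ⟨point, fun i => i.elim0, ?_, ?_⟩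
      · rw [point_chain, pr_cons, bd_pt_mul, pr_nil, bd_one, mul_zero, sub_zero]
      · intro f _
        exact ⟨0, by simp, by simp⟩
    | cons y t =>
      have h1 : List.ofFn (x :: y :: t).get = x :: y :: t := List.ofFn_get _
      refine ⟨simplex (t.length + 1) (by omega), (x :: y :: t).get, ?_, ?_⟩
      · have h2 := simplex_chain (t.length + 1) (by omega) (x :: y :: t).get
        refine h2.trans ?_
        exact congrArg (fun l => bd (pr l)) h1
      · intro f hf
        obtain ⟨j, rfl⟩ := (mem_simplex_verts (t.length + 1) (by omega) f).mp hf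
        refine ⟨j, j.isLt, ?_⟩
        have h3 := ofFn_eraseIdx (t.length + 1) (x :: y :: t).get j
        refine Eq.trans ?_ (h3.trans (congrArg (fun l => List.eraseIdx l (j : ℕ)) h1))
        rfl

theorem done : TaskB := by
  intro M _ gs
  induction gs with
  | nil =>
    intro _
    refine ⟨point, fun i => i.elim0, ?_, ?_⟩
    · refine (point_chain (M := M) (fun i => i.elim0)).trans ?_
      simp [kl]
    · intro f _
      show List.ofFn _ = []
      exact List.ofFn_zero
  | cons g gs ih =>
    intro h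
    obtain ⟨P, l₁, hP, hP'⟩ := one_factor g (h g List.mem_cons_self)
    obtain ⟨Q, l₂, hQ, hQ'⟩ := ih fun g' hg' => h g' (List.mem_cons_of_mem _ hg')
    refine ⟨(prodP P Q : SimplePolytope ((g.length - 1) + len gs)), plam P Q l₁ l₂, ?_, ?_⟩
    · refine (prod_chain P Q l₁ l₂).trans ?_
      rw [hP, hQ]
      simp [kl]
    · intro F hF
      obtain ⟨f, hf, g', hg', rfl⟩ := exists_glue P Q F hF
      obtain ⟨i, hi, h1⟩ := hP' f hf
      refine ⟨i, hi, List.ofFn fun i => l₂ (g' i), hQ' g' hg', ?_⟩
      rw [← h1]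
      exact ofFn_glue P Q l₁ l₂ f g'

end Pool.Agent.W249.QT
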