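import Pool.Agent.W31.QT.Defs

/-!
# QT-B, part 1: boundary of a simplex and the simplex as a simple polytope
-/

set_option autoImplicit false

namespace Pool.Agent.W249.QT

open Pool.Agent.W31.QT Finset

variable {M : Type} [AddCommGroup M]

theorem pr_nil : pr ([] : List M) = 1 := by simp [pr]

theorem pr_cons (x : M) (l : List M) : pr (x :: l) = pt x * pr l := by simp [pr]

theorem pr_append (l l' : List M) : pr (l ++ l') = pr l * pr l' := by simp [pr]

theorem bd_one : bd (1 : E M) = 0 := by
  unfold bd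
  exact CliffordAlgebra.contractLeft_one (Q := (0 : QuadraticForm ℤ (M →₀ ℤ)))
    (Finsupp.linearCombination ℤ (fun _ : M => (1 : ℤ)))

theorem bd_pt_mul (x : M) (y : E M) : bd (pt x * y) = y - pt x * bd y := by
  have h := CliffordAlgebra.contractLeft_ι_mul (Q := (0 : QuadraticForm ℤ (M →₀ ℤ)))
    (d := Finsupp.linearCombination ℤ (fun _ : M => (1 : ℤ))) (Finsupp.single x 1) y
  have h1 : (Finsupp.linearCombination ℤ (fun _ : M => (1 : ℤ))) (Finsupp.single x 1) = 1 := by
    simp
  rw [h1, one_smul] at h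
  exact h

theorem bd_pr (d : ℕ) (G : Fin (d + 1) → M) :
    bd (pr (List.ofFn G)) =
      ∑ j : Fin (d + 1), (-1 : ℤ) ^ (j : ℕ) • pr (List.ofFn fun i => G (j.succAbove i)) := by
  induction d with
  | zero =>
    rw [List.ofFn_succ, List.ofFn_zero, pr_cons, pr_nil, bd_pt_mul, bd_one]
    simp [pr_nil]
  | succ d ih =>
    rw [List.ofFn_succ, pr_cons, bd_pt_mul, ih, Fin.sum_univ_succ (n := d + 1)]
    have h0 : ((-1 : ℤ) ^ ((0 : Fin (d + 2)) : ℕ)) •
        pr (List.ofFn fun i => G ((0 : Fin (d + 2)).succAbove i)) =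
        pr (List.ofFn fun i => G i.succ) := by
      simp
    rw [h0, sub_eq_add_neg, Finset.mul_sum, ← Finset.sum_neg_distrib]
    congr 1
    refine Finset.sum_congr rfl fun j _ => ?_
    have h1 : (List.ofFn fun i => G ((j.succ).succAbove i)) =
        G 0 :: List.ofFn fun i => G ((j.succAbove i).succ) := by
      rw [List.ofFn_succ]
      simp
    rw [h1, pr_cons, Fin.val_succ, pow_succ, mul_smul_comm, mul_neg, mul_one, neg_smul]

theorem ofFn_eraseIdx {α : Type} (d : ℕ) (G : Fin (d + 1) → α) (j : Fin (d + 1)) :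
    (List.ofFn fun i => G (j.succAbove i)) = (List.ofFn G).eraseIdx j := by
  induction d with
  | zero =>
    have hj : j = 0 := Fin.fin_one_eq_zero j
    subst hj
    simp
  | succ d ih =>
    refine Fin.cases ?_ (fun j => ?_) j
    · rw [List.ofFn_succ (f := G)]
      simp
    · rw [List.ofFn_succ (f := G), List.ofFn_succ]
      rw [Fin.val_succ, List.eraseIdx_cons_succ, ← ih (fun i => G i.succ) j]
      simp

/-- the description of linear independence by extended coefficients -/
theorem li_iff {m n : ℕ} (a : Fin m → Fin n → ℝ) (p : Fin m → Prop) :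
    LinearIndependent ℝ (fun i : {i : Fin m // p i} => a i) ↔
      ∀ c : Fin m → ℝ, (∀ i, ¬ p i → c i = 0) → ∑ i, c i • a i = 0 → ∀ i, c i = 0 := by
  classical
  rw [Fintype.linearIndependent_iff]
  constructor
  · intro h c hc hs i
    by_cases hi : p i
    · refine h (fun i => c i) ?_ ⟨i, hi⟩
      rw [← hs]
      have h1 := Fintype.sum_subtype_add_sum_subtype p (fun i => c i • a i)
      rw [← h1]
      have h2 : ∑ i : {i // ¬ p i}, c i • a i = 0 := by
        refine Finset.sum_eq_zero fun i _ => ?_
        rw [hc i i.2, zero_smul]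
      rw [h2, add_zero]
    · exact hc i hi
  · intro h g hg i
    have h1 := h (fun i => if hi : p i then g ⟨i, hi⟩ else 0) (fun i hi => dif_neg hi) ?_ i
    · rw [dif_pos i.2] at h1
      exact h1
    · rw [← hg]
      have h1 := Fintype.sum_subtype_add_sum_subtype p
        (fun i => (if hi : p i then g ⟨i, hi⟩ else 0) • a i)
      rw [← h1]
      have h2 : ∑ i : {i // ¬ p i}, (if hi : p i then g ⟨i, hi⟩ else 0) • a i = 0 := by
        refine Finset.sum_eq_zero fun i _ => ?_
        rw [dif_neg i.2, zero_smul]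
      rw [h2, add_zero]
      refine Finset.sum_congr rfl fun i _ => ?_
      rw [dif_pos i.2]

/-! ### the point -/

/-- the point in `ℝ ^ 0` -/
noncomputable def point : SimplePolytope 0 where
  m := 0
  a := fun i => i.elim0
  b := fun i => i.elim0
  bounded := (Set.toFinite _).isBounded
  full := ⟨0, fun i => i.elim0⟩
  facet := fun i => i.elim0
  simple := fun x _ => by
    have : IsEmpty {i : Fin 0 // (i.elim0 : Fin 0 → ℝ) ⬝ᵥ x + i.elim0 = 0} := ⟨fun i => i.1.elim0⟩
    exact linearIndependent_empty_type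

theorem point_verts : point.verts = {fun i => i.elim0} := by
  classical
  ext f
  simp only [SimplePolytope.verts, Finset.mem_filter, Finset.mem_univ, true_and,
    Finset.mem_singleton]
  constructor
  · intro _
    exact Subsingleton.elim _ _
  · intro _
    exact ⟨fun i => i.elim0, 0, fun i => i.elim0, fun i => i.elim0⟩

theorem point_chain (lam : Fin point.m → M) : point.chain lam = 1 := by
  unfold SimplePolytope.chain
  rw [point_verts, Finset.sum_singleton]
  unfold SimplePolytope.vsign
  rw [Matrix.det_isEmpty]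
  simp [pr]

/-! ### the simplex -/

/-- the normals of the simplex -/
noncomputable def sa (d : ℕ) : Fin (d + 1) → Fin d → ℝ :=
  Fin.cases (fun _ => -1) (fun j => Pi.single j 1)

/-- the constants of the simplex -/
noncomputable def sb (d : ℕ) : Fin (d + 1) → ℝ := Fin.cases 1 (fun _ => 0)

theorem sa_zero (d : ℕ) (x : Fin d → ℝ) : sa d 0 ⬝ᵥ x + sb d 0 = 1 - ∑ i, x i := by
  simp only [sa, sb, Fin.cases_zero, dotProduct]
  rw [← Finset.mul_sum]
  ring

theorem sa_succ (d : ℕ) (x : Fin d → ℝ) (j : Fin d) :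
    sa d j.succ ⬝ᵥ x + sb d j.succ = x j := by
  simp [sa, sb]

theorem sa_forall (d : ℕ) (x : Fin d → ℝ) (q : ℝ → Prop) :
    (∀ i, q (sa d i ⬝ᵥ x + sb d i)) ↔ q (1 - ∑ i, x i) ∧ ∀ j, q (x j) := by
  rw [Fin.forall_fin_succ, sa_zero]
  simp only [sa_succ]

/-- the simplex -/
noncomputable def simplex (d : ℕ) (hd : 1 ≤ d) : SimplePolytope d where
  m := d + 1
  a := sa d
  b := sb d
  bounded := by
    refine (Metric.isBounded_closedBall (x := (0 : Fin d → ℝ)) (r := 1)).subset ?_
    intro x hx
    obtain ⟨h1, h2⟩ := (sa_forall d x (fun y => 0 ≤ y)).mp hx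
    rw [Metric.mem_closedBall, dist_zero_right]
    refine (pi_norm_le_iff_of_nonneg zero_le_one).mpr fun i => ?_
    rw [Real.norm_eq_abs, abs_of_nonneg (h2 i)]
    have := Finset.single_le_sum (f := x) (fun i _ => h2 i) (Finset.mem_univ i)
    linarith
  full := by
    refine ⟨fun _ => 1 / (d + 1), (sa_forall d _ (fun y => 0 < y)).mpr ⟨?_, fun _ => by positivity⟩⟩
    rw [Finset.sum_const, Finset.card_univ, Fintype.card_fin, nsmul_eq_mul, sub_pos,
      mul_one_div, div_lt_one (by positivity)]
    linarith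
  facet := by
    have hd0 : (0 : ℝ) < d := by exact_mod_cast hd
    refine Fin.cases ?_ (fun j => ?_)
    · refine ⟨fun _ => 1 / d, ?_, fun j hj => ?_⟩
      · rw [sa_zero, Finset.sum_const, Finset.card_univ, Fintype.card_fin, nsmul_eq_mul]
        field_simp
        ring
      · obtain ⟨k, rfl⟩ := Fin.exists_succ_eq.mpr hj
        rw [sa_succ]
        positivity
    · refine ⟨fun k => if k = j then 0 else 1 / (d + 1), ?_, fun i => ?_⟩
      · rw [sa_succ, if_pos rfl]
      · refine Fin.cases (fun _ => ?_) (fun k hk => ?_) i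
        · rw [sa_zero, sub_pos]
          calc ∑ k : Fin d, (if k = j then 0 else 1 / ((d : ℝ) + 1))
              ≤ ∑ _k : Fin d, 1 / ((d : ℝ) + 1) := by
                refine Finset.sum_le_sum fun k _ => ?_
                split_ifs
                · positivity
                · exact le_rfl
            _ < 1 := by
                rw [Finset.sum_const, Finset.card_univ, Fintype.card_fin, nsmul_eq_mul,
                  mul_one_div, div_lt_one (by positivity)]
                linarith
        · rw [sa_succ, if_neg (fun h => hk (by rw [h]))]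
          positivity
  simple := by
    intro x hx
    rw [li_iff]
    intro c hc hs
    obtain ⟨h1, h2⟩ := (sa_forall d x (fun y => 0 ≤ y)).mp hx
    have h3 : ∀ k : Fin d, c k.succ = c 0 := by
      intro k
      have h4 := congrFun hs k
      rw [Finset.sum_apply, Fin.sum_univ_succ] at h4
      simp only [Pi.smul_apply, smul_eq_mul, sa, Fin.cases_zero, Fin.cases_succ,
        Pi.zero_apply, Pi.single_apply, mul_ite, mul_one, mul_zero, Finset.sum_ite_eq,
        Finset.mem_univ, if_true] at h4
      linarith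
    have h5 : c 0 = 0 := by
      by_contra hne
      have h6 : sa d 0 ⬝ᵥ x + sb d 0 = 0 := by
        by_contra h
        exact hne (hc 0 h)
      have h7 : ∀ k : Fin d, x k = 0 := by
        intro k
        by_contra h
        have := hc k.succ (by rw [sa_succ]; exact h)
        rw [h3 k] at this
        exact hne this
      rw [sa_zero, Finset.sum_eq_zero fun k _ => h7 k] at h6
      norm_num at h6
    exact Fin.cases h5 fun k => by rw [h3 k, h5]

/-- the vertex opposite to the facet `j` -/
def sv (d : ℕ) (hd : 1 ≤ d) (j : Fin (d + 1)) : Fin d → Fin (simplex d hd).m :=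
  (j.succAbove : Fin d → Fin (d + 1))

theorem sv_injective (d : ℕ) (hd : 1 ≤ d) : Function.Injective (sv d hd) :=
  fun _ _ h => Fin.succAbove_left_injective h

theorem exists_succAbove (d : ℕ) (f : Fin d → Fin (d + 1)) (hf : StrictMono f) :
    ∃ j : Fin (d + 1), (j.succAbove : Fin d → Fin (d + 1)) = f := by
  obtain ⟨j, hj⟩ : ∃ j : Fin (d + 1), j ∉ Set.range f := by
    by_contra hcon
    push Not at hcon
    have h1 : Function.Surjective f := hcon
    have h2 := Fintype.card_le_of_surjective _ h1
    rw [Fintype.card_fin, Fintype.card_fin] at h2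
    omega
  refine ⟨j, ?_⟩
  refine (StrictMono.range_inj (Fin.strictMono_succAbove j) hf).mp ?_
  rw [Fin.range_succAbove]
  symm
  refine Set.eq_of_subset_of_ncard_le (fun x hx => ?_) ?_ (Set.toFinite _)
  · intro h
    rw [Set.mem_singleton_iff] at h
    exact hj (h ▸ hx)
  · have h1 : (Set.range f).ncard = d := by
      rw [← Set.image_univ, Set.ncard_image_of_injective _ hf.injective, Set.ncard_univ]
      simp
    have h2 : ({j}ᶜ : Set (Fin (d + 1))).ncard = d := by
      rw [Set.ncard_compl, Set.ncard_singleton]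
      simp
    rw [h1, h2]

theorem vertex_point (d : ℕ) (j : Fin (d + 1)) : ∃ x : Fin d → ℝ,
    (∀ i, 0 ≤ sa d i ⬝ᵥ x + sb d i) ∧
      ∀ t : Fin (d + 1), t ≠ j → sa d t ⬝ᵥ x + sb d t = 0 := by
  refine Fin.cases ?_ (fun k => ?_) j
  · refine ⟨0, (sa_forall d 0 (fun y => 0 ≤ y)).mpr ⟨by simp, fun _ => le_rfl⟩, fun t ht => ?_⟩
    obtain ⟨i, rfl⟩ := Fin.exists_succ_eq.mpr ht
    rw [sa_succ]
    rfl
  · have hs : ∑ i : Fin d, (Pi.single k 1 : Fin d → ℝ) i = 1 := by simp
    refine ⟨Pi.single k 1, (sa_forall d _ (fun y => 0 ≤ y)).mpr ⟨?_, fun j => ?_⟩, fun t => ?_⟩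
    · rw [hs]; norm_num
    · rw [Pi.single_apply]; split_ifs <;> norm_num
    · refine Fin.cases (fun _ => ?_) (fun l hl => ?_) t
      · rw [sa_zero, hs, sub_self]
      · rw [sa_succ, Pi.single_apply, if_neg]
        intro h
        exact hl (by rw [h])

theorem mem_simplex_verts (d : ℕ) (hd : 1 ≤ d) (f : Fin d → Fin (simplex d hd).m) :
    f ∈ (simplex d hd).verts ↔ ∃ j, sv d hd j = f := by
  classical
  unfold SimplePolytope.verts
  rw [Finset.mem_filter]
  simp only [Finset.mem_univ, true_and]
  constructor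
  · rintro ⟨hf, -⟩
    exact exists_succAbove d f hf
  · rintro ⟨j, rfl⟩
    obtain ⟨x, h1, h2⟩ := vertex_point d j
    exact ⟨Fin.strictMono_succAbove j, x, h1, fun i => h2 _ (Fin.succAbove_ne _ _)⟩

theorem sa_sum (d : ℕ) : ∑ j, sa d j = 0 := by
  rw [Fin.sum_univ_succ]
  funext k
  simp [sa, Pi.single_apply, Finset.sum_apply]

theorem simplex_vsign (d : ℕ) (hd : 1 ≤ d) (j : Fin (d + 1)) :
    (simplex d hd).vsign (sv d hd j) = (-1) ^ (j : ℕ) := by
  unfold SimplePolytope.vsign
  have h1 := Matrix.submatrix_succAbove_det_eq_negOnePow_submatrix_succAbove_det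
    (Matrix.of (sa d)) (sa_sum d) j 0
  have h2 : ((Matrix.of (sa d)).submatrix (Fin.succAbove 0) id) = (1 : Matrix (Fin d) (Fin d) ℝ) := by
    ext i k
    simp [sa, Matrix.one_apply, Pi.single_apply, eq_comm]
  rw [h2, Matrix.det_one] at h1
  have h3 : (Matrix.of fun i => (simplex d hd).a (sv d hd j i)) =
      (Matrix.of (sa d)).submatrix (Fin.succAbove j) id := rfl
  rw [h3, h1]
  have h4 : (((j : ℕ) : ℤ) - (((0 : Fin (d + 1)) : ℕ) : ℤ)) = ((j : ℕ) : ℤ) := by simp
  rw [h4]
  rcases Nat.even_or_odd (j : ℕ) with h | h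
  · rw [Int.negOnePow_even _ (by exact_mod_cast h), h.neg_one_pow]
    simp
  · rw [Int.negOnePow_odd _ (by exact_mod_cast h), h.neg_one_pow]
    simp

theorem simplex_chain (d : ℕ) (hd : 1 ≤ d) (G : Fin (d + 1) → M) :
    (simplex d hd).chain (G : Fin (simplex d hd).m → M) = bd (pr (List.ofFn G)) := by
  classical
  have h1 : (simplex d hd).verts = Finset.univ.image (sv d hd) := by
    ext f
    rw [mem_simplex_verts, Finset.mem_image]
    simp
  unfold SimplePolytope.chain
  rw [h1, Finset.sum_image (fun a _ b _ h => sv_injective d hd h), bd_pr]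
  refine Finset.sum_congr rfl fun j _ => ?_
  rw [simplex_vsign]
  rfl

end Pool.Agent.W249.QT
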